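import Mathlib

set_option autoImplicit false

namespace Pool.Agent.Results.MP_def4bf_gt.CantorGroup

open Filter Topology Set MeasureTheory

/-- `A` is null-finite: some null-sequence `s` meets every translate of `A` in finitely many indices. -/
def NullFinite {X : Type} [AddCommGroup X] [TopologicalSpace X] (A : Set X) : Prop :=
  ∃ s : ℕ → X, Tendsto s atTop (𝓝 0) ∧ ∀ x : X, {n : ℕ | x + s n ∈ A}.Finite

/-- Borel Haar-null sets. -/
def BorelHaarNull {X : Type} [AddCommGroup X] [TopologicalSpace X] (B : Set X) : Prop :=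
  MeasurableSet[borel X] B ∧
    ∃ μ : @Measure X (borel X), μ univ = 1 ∧ ∀ x : X, μ ((fun b => b + x) '' B) = 0

/-- Borel Haar-meager sets. -/
def BorelHaarMeager {X : Type} [AddCommGroup X] [TopologicalSpace X] (B : Set X) : Prop :=
  MeasurableSet[borel X] B ∧
    ∃ (K : Type) (_ : TopologicalSpace K) (_ : CompactSpace K)
      (_ : TopologicalSpace.MetrizableSpace K) (_ : Nonempty K) (f : K → X),
      Continuous f ∧ ∀ x : X, IsMeagre (f ⁻¹' ((fun b => b + x) '' B))

/-- Subsets of Borel Haar-null sets. -/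
def HN (X : Type) [AddCommGroup X] [TopologicalSpace X] : Set (Set X) :=
  {A | ∃ B, A ⊆ B ∧ BorelHaarNull B}

/-- Subsets of Borel Haar-meager sets. -/
def HM (X : Type) [AddCommGroup X] [TopologicalSpace X] : Set (Set X) :=
  {A | ∃ B, A ⊆ B ∧ BorelHaarMeager B}

/-- Sets covered by countably many Borel null-finite sets. -/
def sigmaNF (X : Type) [AddCommGroup X] [TopologicalSpace X] : Set (Set X) :=
  {A | ∃ F : ℕ → Set X, (∀ n, MeasurableSet[borel X] (F n) ∧ NullFinite (F n)) ∧ A ⊆ ⋃ n, F n}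

/-! ### Blocks -/

/-- length of the block `c` -/
def L (c : ℕ) : ℕ := Nat.log 2 (c + 2)

lemma L_pos (c : ℕ) : 0 < L c := by
  unfold L
  exact Nat.log_pos (by norm_num) (by omega)

lemma two_pow_L_le (c : ℕ) : 2 ^ L c ≤ c + 2 := by
  unfold L
  exact Nat.pow_log_le_self 2 (by omega)

lemma lt_of_L_le {c a : ℕ} (h : L c ≤ a) : c + 2 < 2 ^ (a + 1) := by
  unfold L at h
  exact Nat.lt_pow_of_log_lt (by norm_num) (by omega)

/-- positions in blocks -/
abbrev J : Type := Σ c : ℕ, Fin (L c)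

instance : Infinite J :=
  Infinite.of_injective (fun c : ℕ => (⟨c, ⟨0, L_pos c⟩⟩ : J)) (by
    intro a b h
    exact congrArg Sigma.fst h)

/-- enumeration of all positions -/
noncomputable def e : J ≃ ℕ := Classical.choice nonempty_equiv_of_countable

/-- points whose difference with `x` is nonzero on each block -/
def Bx (x : ℕ → ZMod 2) : Set (ℕ → ZMod 2) :=
  {y | ∀ c, ∃ j : Fin (L c), y (e ⟨c, j⟩) ≠ x (e ⟨c, j⟩)}

lemma translate (x : ℕ → ZMod 2) : (fun b => b + x) '' (Bx 0) = Bx x := by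
  ext y
  constructor
  · rintro ⟨z, hz, rfl⟩ c
    obtain ⟨j, hj⟩ := hz c
    refine ⟨j, ?_⟩
    simpa using hj
  · intro hy
    refine ⟨y - x, ?_, by simp⟩
    intro c
    obtain ⟨j, hj⟩ := hy c
    refine ⟨j, ?_⟩
    simpa [sub_eq_zero] using hj

lemma closed_Bx (x : ℕ → ZMod 2) : IsClosed (Bx x) := by
  have : Bx x = ⋂ c, ⋃ j : Fin (L c), {y : ℕ → ZMod 2 | y (e ⟨c, j⟩) ≠ x (e ⟨c, j⟩)} := by
    ext y; simp [Bx]
  rw [this]
  refine isClosed_iInter fun c => isClosed_iUnion_of_finite fun j => ?_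
  have hc : Continuous (fun y : ℕ → ZMod 2 => y (e ⟨c, j⟩)) := continuous_apply _
  exact (isClosed_discrete {z : ZMod 2 | z ≠ x (e ⟨c, j⟩)}).preimage hc

/-! ### Haar-null -/

local instance : MeasurableSpace (ZMod 2) := ⊤

local instance : BorelSpace (ZMod 2) := ⟨borel_eq_top_of_discrete.symm⟩

/-- uniform measure on the block `c` -/
noncomputable def nu (c : ℕ) : Measure (Fin (L c) → ZMod 2) :=
  (PMF.uniformOfFintype (Fin (L c) → ZMod 2)).toMeasure

instance (c : ℕ) : IsProbabilityMeasure (nu c) := by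
  unfold nu; infer_instance

lemma nu_compl_singleton (c : ℕ) (a : Fin (L c) → ZMod 2) :
    nu c {a}ᶜ ≤ ENNReal.ofReal ((c + 1 : ℝ) / (c + 2)) := by
  rw [prob_compl_eq_one_sub (measurableSet_singleton a)]
  have h1 : nu c {a} = ((2 : ENNReal) ^ L c)⁻¹ := by
    unfold nu
    rw [PMF.toMeasure_apply_singleton _ _ (measurableSet_singleton a)]
    simp [PMF.uniformOfFintype_apply]
  rw [h1]
  have h2 : ((c : ENNReal) + 2)⁻¹ ≤ ((2 : ENNReal) ^ L c)⁻¹ := by
    apply ENNReal.inv_le_inv.mpr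
    have := two_pow_L_le c
    exact_mod_cast this
  have h3 : (1 : ENNReal) - ((2 : ENNReal) ^ L c)⁻¹ ≤ 1 - ((c : ENNReal) + 2)⁻¹ :=
    tsub_le_tsub_left h2 1
  refine h3.trans ?_
  have h4 : ((c : ENNReal) + 2)⁻¹ = ENNReal.ofReal ((c + 2 : ℝ)⁻¹) := by
    rw [ENNReal.ofReal_inv_of_pos (by positivity)]
    congr 1
    rw [ENNReal.ofReal_add (by positivity) (by norm_num)]
    simp
  rw [h4, ← ENNReal.ofReal_one, ← ENNReal.ofReal_sub _ (by positivity)]
  apply ENNReal.ofReal_le_ofReal
  have : (c : ℝ) + 2 ≠ 0 := by positivity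
  apply le_of_eq
  field_simp
  ring

lemma prod_range_eq (m : ℕ) : ∏ c ∈ Finset.range m, ((c + 1 : ℝ) / (c + 2)) = 1 / (m + 1) := by
  induction m with
  | zero => simp
  | succ n ih =>
    rw [Finset.prod_range_succ, ih]
    have h1 : (n : ℝ) + 1 ≠ 0 := by positivity
    have h2 : (n : ℝ) + 2 ≠ 0 := by positivity
    push_cast
    field_simp
    ring

/-- assembling blocks into a point -/
noncomputable def psi (z : (c : ℕ) → (Fin (L c) → ZMod 2)) : ℕ → ZMod 2 :=
  fun p => z (e.symm p).1 (e.symm p).2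

lemma psi_meas : Measurable psi := by
  rw [measurable_pi_iff]
  intro p
  exact (measurable_pi_apply _).comp (measurable_pi_apply _)

lemma psi_apply (z : (c : ℕ) → (Fin (L c) → ZMod 2)) (c : ℕ) (j : Fin (L c)) :
    psi z (e ⟨c, j⟩) = z c j := by
  have : ∀ q : J, psi z (e q) = z q.1 q.2 := by
    intro q
    unfold psi
    rw [Equiv.symm_apply_apply]
  exact this ⟨c, j⟩

/-- the measure used -/
noncomputable def mu : Measure (ℕ → ZMod 2) := (Measure.infinitePi nu).map psi

lemma mu_univ : mu univ = 1 := by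
  unfold mu
  rw [Measure.map_apply psi_meas MeasurableSet.univ]
  simp

lemma mu_Bx (x : ℕ → ZMod 2) : mu (Bx x) = 0 := by
  have hm : MeasurableSet (Bx x) := (closed_Bx x).measurableSet
  have hb : ∀ m : ℕ, mu (Bx x) ≤ ENNReal.ofReal (1 / (m + 1)) := by
    intro m
    unfold mu
    rw [Measure.map_apply psi_meas hm]
    have hsub : psi ⁻¹' (Bx x) ⊆ Set.pi (Finset.range m : Set ℕ)
        (fun c => ({fun j : Fin (L c) => x (e ⟨c, j⟩)}ᶜ : Set (Fin (L c) → ZMod 2))) := by
      intro z hz c _ hzc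
      obtain ⟨j, hj⟩ := hz c
      rw [psi_apply] at hj
      apply hj
      exact congrFun hzc j
    refine (measure_mono hsub).trans ?_
    rw [Measure.infinitePi_pi nu (s := Finset.range m)
      (fun c _ => (measurableSet_singleton _).compl)]
    rw [← prod_range_eq, ENNReal.ofReal_prod_of_nonneg (fun c _ => by positivity)]
    exact Finset.prod_le_prod' fun c _ => nu_compl_singleton c _
  have ht : Tendsto (fun m : ℕ => ENNReal.ofReal (1 / ((m : ℝ) + 1))) atTop (𝓝 0) := by
    rw [← ENNReal.ofReal_zero]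
    exact ENNReal.tendsto_ofReal tendsto_one_div_add_atTop_nhds_zero_nat
  exact le_antisymm (ge_of_tendsto' ht hb) bot_le

lemma haarNull_B : BorelHaarNull (Bx 0) := by
  have hb : borel (ℕ → ZMod 2) = MeasurableSpace.pi :=
    (BorelSpace.measurable_eq (α := ℕ → ZMod 2)).symm
  unfold BorelHaarNull
  rw [hb]
  refine ⟨(closed_Bx 0).measurableSet, mu, mu_univ, ?_⟩
  intro x
  rw [translate]
  exact mu_Bx x

/-! ### Haar-meager -/

lemma interior_Bx (x : ℕ → ZMod 2) : interior (Bx x) = ∅ := by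
  by_contra hne
  obtain ⟨y, hy⟩ := Set.nonempty_iff_ne_empty.mpr hne
  let z : ℕ → (ℕ → ZMod 2) := fun c p => if (e.symm p).1 = c then x p else y p
  have hz : Tendsto z atTop (𝓝 y) := by
    rw [tendsto_pi_nhds]
    intro p
    apply tendsto_const_nhds.congr'
    filter_upwards [eventually_gt_atTop (e.symm p).1] with c hc
    simp only [z]
    rw [if_neg (ne_of_lt hc)]
  have h1 : ∀ᶠ c in atTop, z c ∈ interior (Bx x) := hz.eventually_mem (isOpen_interior.mem_nhds hy)
  obtain ⟨c, hc⟩ := h1.exists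
  obtain ⟨j, hj⟩ := interior_subset hc c
  apply hj
  simp [z]

lemma haarMeager_B : BorelHaarMeager (Bx 0) := by
  have hb : borel (ℕ → ZMod 2) = MeasurableSpace.pi :=
    (BorelSpace.measurable_eq (α := ℕ → ZMod 2)).symm
  refine ⟨?_, ℕ → ZMod 2, inferInstance, inferInstance, inferInstance, inferInstance, id,
    continuous_id, ?_⟩
  · rw [hb]
    exact (closed_Bx 0).measurableSet
  · intro x
    rw [translate, preimage_id]
    exact ((closed_Bx x).isNowhereDense_iff.mpr (interior_Bx x)).isMeagre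

/-! ### No countable cover by Borel null-finite sets -/

lemma finite_low (a : ℕ) : {p : ℕ | L (e.symm p).1 ≤ a}.Finite := by
  have hsub : {p : ℕ | L (e.symm p).1 ≤ a} ⊆
      ⋃ c ∈ Finset.range (2 ^ (a + 1)), Set.range (fun j : Fin (L c) => e ⟨c, j⟩) := by
    intro p hp
    simp only [mem_iUnion]
    refine ⟨(e.symm p).1, ?_, ⟨(e.symm p).2, ?_⟩⟩
    · have := lt_of_L_le hp
      simp only [Finset.mem_range]
      omega
    · simp
  refine Set.Finite.subset ?_ hsub
  exact Set.Finite.biUnion (Finset.finite_toSet _) fun c _ => Set.finite_range _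

/-- far out in a null-sequence all low coordinates vanish -/
lemma exists_far (s : ℕ → (ℕ → ZMod 2)) (hs : Tendsto s atTop (𝓝 0)) (a : ℕ) :
    ∃ m, a ≤ m ∧ ∀ p : ℕ, L (e.symm p).1 ≤ a + 1 → s m p = 0 := by
  have h1 : ∀ p : ℕ, ∀ᶠ m in atTop, s m p = 0 := by
    intro p
    have : Tendsto (fun m => s m p) atTop (𝓝 ((0 : ℕ → ZMod 2) p)) :=
      (tendsto_pi_nhds.mp hs) p
    have h2 : {(0 : ZMod 2)} ∈ 𝓝 ((0 : ℕ → ZMod 2) p) := by
      simp [nhds_discrete]
    exact this h2
  have h3 : ∀ᶠ m in atTop, ∀ p ∈ {p : ℕ | L (e.symm p).1 ≤ a + 1}, s m p = 0 :=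
    (Set.Finite.eventually_all (finite_low (a + 1))).mpr fun p _ => h1 p
  obtain ⟨m, hm1, hm2⟩ := (h3.and (eventually_ge_atTop a)).exists
  exact ⟨m, hm2, hm1⟩

/-- finite subset sums of the selected vectors -/
noncomputable def phi (v : ℕ → (ℕ → ZMod 2)) (t : ℕ → ZMod 2) : ℕ → ZMod 2 :=
  fun p => ∑ a ∈ Finset.range (L (e.symm p).1 - 1), t a * v a p

lemma phi_cont (v : ℕ → (ℕ → ZMod 2)) : Continuous (phi v) := by
  refine continuous_pi fun p => ?_
  refine continuous_finsetSum _ fun a _ => ?_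
  exact (continuous_of_discreteTopology (f := fun z : ZMod 2 => z * v a p)).comp
    (continuous_apply a)

lemma phi_add (v : ℕ → (ℕ → ZMod 2))
    (hv : ∀ a p : ℕ, L (e.symm p).1 ≤ a + 1 → v a p = 0) (t : ℕ → ZMod 2) (a : ℕ) :
    phi v (t + Pi.single a 1) = phi v t + v a := by
  funext p
  simp only [phi, Pi.add_apply, add_mul, Finset.sum_add_distrib]
  congr 1
  by_cases h : a ∈ Finset.range (L (e.symm p).1 - 1)
  · rw [Finset.sum_eq_single_of_mem a h]
    · simp
    · intro b _ hb
      simp [hb]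
  · rw [Finset.sum_eq_zero]
    · have : L (e.symm p).1 ≤ a + 1 := by
        simp only [Finset.mem_range] at h
        omega
      exact (hv a p this).symm
    · intro b hb
      have : b ≠ a := by
        rintro rfl
        exact h hb
      simp [this]

/-- a translate of the range of `phi` avoids zero on each block -/
lemma exists_base (v : ℕ → (ℕ → ZMod 2)) :
    ∃ x : ℕ → ZMod 2, ∀ t : ℕ → ZMod 2, x + phi v t ∈ Bx 0 := by
  have h1 : ∀ c : ℕ, ∃ z : Fin (L c) → ZMod 2, ∀ τ : Fin (L c - 1) → ZMod 2,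
      z ≠ fun j => ∑ a : Fin (L c - 1), τ a * v a (e ⟨c, j⟩) := by
    intro c
    by_contra hcon
    push Not at hcon
    have hsurj : Function.Surjective (fun (τ : Fin (L c - 1) → ZMod 2) (j : Fin (L c)) =>
        ∑ a : Fin (L c - 1), τ a * v a (e ⟨c, j⟩)) := by
      intro z
      obtain ⟨τ, hτ⟩ := hcon z
      exact ⟨τ, hτ.symm⟩
    have hcard := Fintype.card_le_of_surjective _ hsurj
    simp only [Fintype.card_pi, ZMod.card, Finset.prod_const, Finset.card_univ,
      Fintype.card_fin] at hcard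
    have := Nat.pow_lt_pow_right (a := 2) (by norm_num) (Nat.sub_lt (L_pos c) Nat.one_pos)
    omega
  choose z hz using h1
  refine ⟨fun p => - z (e.symm p).1 (e.symm p).2, ?_⟩
  intro t c
  by_contra hcon
  push Not at hcon
  apply hz c (fun a => t a)
  funext j
  have h2 := hcon j
  simp only [Pi.add_apply, Pi.zero_apply] at h2
  have h3 : ∀ q : J, - z (e.symm (e q)).1 (e.symm (e q)).2 = - z q.1 q.2 := by
    intro q
    rw [Equiv.symm_apply_apply]
  have h4 : ∀ q : J, phi v t (e q) = ∑ a ∈ Finset.range (L q.1 - 1), t a * v a (e q) := by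
    intro q
    unfold phi
    rw [Equiv.symm_apply_apply]
  rw [h3 ⟨c, j⟩, h4 ⟨c, j⟩] at h2
  have h5 : z c j = ∑ a ∈ Finset.range (L c - 1), t a * v a (e ⟨c, j⟩) := by
    have := eq_neg_of_add_eq_zero_right h2
    simpa using this.symm
  rw [h5, Finset.sum_range]

lemma not_sigmaNF : Bx 0 ∉ sigmaNF (ℕ → ZMod 2) := by
  rintro ⟨F, hF, hcov⟩
  have hFm := fun k => (hF k).1
  choose s hs hfin using fun k => (hF k).2
  -- selected terms
  have hsel := fun a : ℕ => exists_far (s (Nat.unpair a).1) (hs (Nat.unpair a).1) a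
  choose m hm1 hm2 using hsel
  set v : ℕ → (ℕ → ZMod 2) := fun a => s (Nat.unpair a).1 (m a) with hv
  obtain ⟨x, hx⟩ := exists_base v
  let g : (ℕ → ZMod 2) → (ℕ → ZMod 2) := fun t => x + phi v t
  have hg : Continuous g := continuous_const.add (phi_cont v)
  -- Borel pieces upstairs
  have hb : borel (ℕ → ZMod 2) = MeasurableSpace.pi :=
    (BorelSpace.measurable_eq (α := ℕ → ZMod 2)).symm
  have hA : ∀ k, BaireMeasurableSet (g ⁻¹' (F k)) := by
    intro k
    have h1 : MeasurableSet (F k) := by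
      have := hFm k
      rwa [hb] at this
    exact (hg.measurable h1).baireMeasurableSet
  choose U hU hAU using fun k => (hA k).residualEq_isOpen
  -- some piece is nonmeager
  have hex : ∃ k, (U k).Nonempty := by
    by_contra hcon
    push Not at hcon
    have h1 : ∀ k, (g ⁻¹' (F k)) =ᵇ (∅ : Set (ℕ → ZMod 2)) := by
      intro k
      have := hAU k
      rwa [hcon k] at this
    have h2 : ∀ᶠ t in residual (ℕ → ZMod 2), ∀ k, ¬ (t ∈ g ⁻¹' (F k)) := by
      rw [eventually_countable_forall]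
      intro k
      filter_upwards [(Filter.eventuallyEq_set.mp (h1 k))] with t ht
      rw [ht]
      simp
    obtain ⟨t, ht⟩ := (dense_of_mem_residual h2).nonempty
    obtain ⟨k, hk⟩ := mem_iUnion.mp (hcov (hx t))
    exact ht k hk
  obtain ⟨k, hk⟩ := hex
  -- shifts by unit vectors
  have hshift : ∀ᶠ t in residual (ℕ → ZMod 2), ∀ a : ℕ,
      (t + Pi.single a 1 ∈ g ⁻¹' (F k) ↔ t + Pi.single a 1 ∈ U k) := by
    rw [eventually_countable_forall]
    intro a
    have h1 := Filter.eventuallyEq_set.mp (hAU k)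
    have h2 : Tendsto (Homeomorph.addRight (Pi.single a (1 : ZMod 2) : ℕ → ZMod 2))
        (residual _) (residual _) :=
      tendsto_residual_of_isOpenMap (Homeomorph.addRight _).continuous
        (Homeomorph.addRight _).isOpenMap
    exact h2.eventually h1
  obtain ⟨t, htU, ht⟩ := (dense_of_mem_residual hshift).inter_open_nonempty (U k) (hU k) hk
  -- unit vectors tend to zero
  have hlim : Tendsto (fun a : ℕ => t + Pi.single a (1 : ZMod 2)) atTop (𝓝 t) := by
    rw [tendsto_pi_nhds]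
    intro p
    apply tendsto_const_nhds.congr'
    filter_upwards [eventually_gt_atTop p] with a ha
    simp [ne_of_lt ha]
  have hev : ∀ᶠ a : ℕ in atTop, t + Pi.single a (1 : ZMod 2) ∈ U k :=
    hlim.eventually_mem ((hU k).mem_nhds htU)
  obtain ⟨a0, ha0⟩ := eventually_atTop.mp hev
  -- infinitely many terms of the k-th sequence
  have hinf := hfin k (x + phi v t)
  obtain ⟨N, hN⟩ := hinf.bddAbove
  let j : ℕ := max a0 (N + 1)
  let a : ℕ := Nat.pair k j
  have haj : j ≤ a := Nat.right_le_pair k j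
  have ha1 : (Nat.unpair a).1 = k := by simp [a]
  have hmem : t + Pi.single a (1 : ZMod 2) ∈ g ⁻¹' (F k) :=
    (ht a).mpr (ha0 a (le_trans (le_max_left _ _) haj))
  have hmem2 : (x + phi v t) + s k (m a) ∈ F k := by
    have h1 : g (t + Pi.single a (1 : ZMod 2)) = (x + phi v t) + s k (m a) := by
      simp only [g]
      rw [phi_add v (fun a p hp => hm2 a p hp) t a, hv]
      simp only [ha1]
      abel
    have h2 : g (t + Pi.single a (1 : ZMod 2)) ∈ F k := hmem
    rwa [h1] at h2
  have := hN hmem2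
  have h3 : N + 1 ≤ j := le_max_right _ _
  have h4 : a ≤ m a := hm1 a
  omega

lemma polish : PolishSpace (ℕ → ZMod 2) := { }

/-- In the compact Polish group of all sequences over Z/2 there is a closed set which is Haar-null and
Haar-meager but is not covered by countably many Borel null-finite sets. -/
theorem result :
    PolishSpace (ℕ → ZMod 2) ∧ IsTopologicalAddGroup (ℕ → ZMod 2) ∧
      ∃ B : Set (ℕ → ZMod 2), IsClosed B ∧ B ∈ HN (ℕ → ZMod 2) ∧ B ∈ HM (ℕ → ZMod 2) ∧
        B ∉ sigmaNF (ℕ → ZMod 2) :=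
  ⟨polish, inferInstance, Bx 0, closed_Bx 0, ⟨Bx 0, subset_rfl, haarNull_B⟩,
    ⟨Bx 0, subset_rfl, haarMeager_B⟩, not_sigmaNF⟩

end Pool.Agent.Results.MP_def4bf_gt.CantorGroup
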